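import Mathlib

namespace Pool.Agent.Results.MP_aaa104_nt.NotRecovered

/-- `a` is a positive integer all of whose prime factors are at most `n`. -/
def Smooth (n a : ℕ) : Prop := 0 < a ∧ ∀ p : ℕ, p.Prime → p ∣ a → p ≤ n

/-- The group of positive rationals `a / b` with `a`, `b` both `n`-smooth. -/
def K (n : ℕ) : Set ℚ := {x | ∃ a b : ℕ, Smooth n a ∧ Smooth n b ∧ x = (a : ℚ) / (b : ℚ)}

/-- An `n`-satisfactory coloring of `K n` (values of `c` outside `K n` play no role). -/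
def Satisfactory (n : ℕ) (c : ℚ → ℕ) : Prop :=
  (∀ x ∈ K n, 1 ≤ c x ∧ c x ≤ n) ∧ (∀ i : ℕ, 1 ≤ i → i ≤ n → c (i : ℚ) = i) ∧
    ∀ x ∈ K n, ∀ i j : ℕ, 1 ≤ i → i < j → j ≤ n → c ((i : ℚ) * x) ≠ c ((j : ℚ) * x)

/-- The color class of the color `k`. -/
def cls (n : ℕ) (c : ℚ → ℕ) (k : ℕ) : Set ℚ := {x | x ∈ K n ∧ c x = k}

noncomputable def phi (x : ℚ) : ZMod 12 :=
  ((padicValRat 2 x + 6 * padicValRat 3 x + 8 * padicValRat 5 x : ℤ) : ZMod 12)

def tbl (z : ZMod 12) : ℕ := [1, 2, 4, 1, 2, 5, 3, 6, 5, 3, 6, 4].getD z.val 1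

def tt (i : ℕ) : ZMod 12 := [0, 0, 1, 6, 2, 8, 7].getD i 0

theorem phi_mul (x y : ℚ) (hx : x ≠ 0) (hy : y ≠ 0) : phi (x * y) = phi x + phi y := by
  have : Fact (Nat.Prime 5) := ⟨by norm_num⟩
  unfold phi
  rw [padicValRat.mul hx hy, padicValRat.mul hx hy, padicValRat.mul hx hy]
  push_cast
  ring

theorem phi_one : phi 1 = 0 := by simp [phi]

theorem phi_two : phi 2 = 1 := by
  have h2 : padicValRat 2 ((2 : ℕ) : ℚ) = 1 := padicValRat.self (by norm_num)
  have h3 : padicValRat 3 ((2 : ℕ) : ℚ) = 0 := by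
    rw [padicValRat.of_nat, padicValNat.eq_zero_of_not_dvd (by norm_num)]; rfl
  have h5 : padicValRat 5 ((2 : ℕ) : ℚ) = 0 := by
    rw [padicValRat.of_nat, padicValNat.eq_zero_of_not_dvd (by norm_num)]; rfl
  have e : ((2 : ℕ) : ℚ) = 2 := by norm_num
  rw [e] at h2 h3 h5
  unfold phi
  rw [h2, h3, h5]; decide

theorem phi_three : phi 3 = 6 := by
  have h2 : padicValRat 3 ((3 : ℕ) : ℚ) = 1 := padicValRat.self (by norm_num)
  have h3 : padicValRat 2 ((3 : ℕ) : ℚ) = 0 := by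
    rw [padicValRat.of_nat, padicValNat.eq_zero_of_not_dvd (by norm_num)]; rfl
  have h5 : padicValRat 5 ((3 : ℕ) : ℚ) = 0 := by
    rw [padicValRat.of_nat, padicValNat.eq_zero_of_not_dvd (by norm_num)]; rfl
  have e : ((3 : ℕ) : ℚ) = 3 := by norm_num
  rw [e] at h2 h3 h5
  unfold phi
  rw [h2, h3, h5]; decide

theorem phi_five : phi 5 = 8 := by
  have h2 : padicValRat 5 ((5 : ℕ) : ℚ) = 1 := padicValRat.self (by norm_num)
  have h3 : padicValRat 2 ((5 : ℕ) : ℚ) = 0 := by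
    rw [padicValRat.of_nat, padicValNat.eq_zero_of_not_dvd (by norm_num)]; rfl
  have h5 : padicValRat 3 ((5 : ℕ) : ℚ) = 0 := by
    rw [padicValRat.of_nat, padicValNat.eq_zero_of_not_dvd (by norm_num)]; rfl
  have e : ((5 : ℕ) : ℚ) = 5 := by norm_num
  rw [e] at h2 h3 h5
  unfold phi
  rw [h2, h3, h5]; decide

theorem phi_four : phi 4 = 2 := by
  rw [show (4 : ℚ) = 2 * 2 by norm_num, phi_mul _ _ (by norm_num) (by norm_num), phi_two]; decide

theorem phi_six : phi 6 = 7 := by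
  rw [show (6 : ℚ) = 2 * 3 by norm_num, phi_mul _ _ (by norm_num) (by norm_num), phi_two,
    phi_three]; decide

theorem phi_eight : phi 8 = 3 := by
  rw [show (8 : ℚ) = 2 * 4 by norm_num, phi_mul _ _ (by norm_num) (by norm_num), phi_two,
    phi_four]; decide

theorem phi_nat (i : ℕ) (h1 : 1 ≤ i) (h6 : i ≤ 6) : phi (i : ℚ) = tt i := by
  interval_cases i
  · simpa [tt] using phi_one
  · simpa [tt] using phi_two
  · simpa [tt] using phi_three
  · simpa [tt] using phi_four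
  · simpa [tt] using phi_five
  · simpa [tt] using phi_six

theorem K_ne (n : ℕ) (x : ℚ) (hx : x ∈ K n) : x ≠ 0 := by
  obtain ⟨a, b, ha, hb, rfl⟩ := hx
  have := ha.1; have := hb.1
  positivity

theorem pow_mem (k : ℕ) : ((2 : ℚ) ^ k) ∈ K 6 := by
  refine ⟨2 ^ k, 1, ⟨by positivity, fun p hp h => ?_⟩, ⟨by norm_num, fun p hp h => ?_⟩, by simp⟩
  · have := (Nat.prime_dvd_prime_iff_eq hp Nat.prime_two).1 (hp.dvd_of_dvd_pow h); omega
  · exact absurd (Nat.dvd_one.1 h) hp.one_lt.ne'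

theorem key : ∀ z : ZMod 12, ∀ i j : Fin 7, 1 ≤ i.val → i.val < j.val →
    tbl (tt i.val + z) ≠ tbl (tt j.val + z) := by decide

theorem rng : ∀ z : ZMod 12, 1 ≤ tbl z ∧ tbl z ≤ 6 := by decide

theorem result : ∃ (n : ℕ) (c : ℚ → ℕ), 1 ≤ n ∧ Satisfactory n c ∧
    ∃ k i : ℕ, 1 ≤ k ∧ k ≤ n ∧ 1 ≤ i ∧ i ≤ n ∧
      ∀ l : ℕ, (fun x => (i : ℚ) * x) '' cls n c k ≠ cls n c l := by
  refine ⟨6, fun x => tbl (phi x), by norm_num, ⟨fun x _ => rng _, fun i h1 h6 => ?_, ?_⟩,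
    1, 4, by norm_num, by norm_num, by norm_num, by norm_num, fun l h => ?_⟩
  · show tbl (phi i) = i
    rw [phi_nat i h1 h6]
    interval_cases i <;> decide
  · intro x hx i j h1 hij h6
    have hx0 := K_ne 6 x hx
    show tbl (phi (i * x)) ≠ tbl (phi (j * x))
    rw [phi_mul _ _ (by have : 0 < i := h1; positivity) hx0,
      phi_mul _ _ (by have : 0 < j := by omega
                      positivity) hx0, phi_nat i h1 (by omega), phi_nat j (by omega) h6]
    exact key (phi x) ⟨i, by omega⟩ ⟨j, by omega⟩ h1 hij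
  · have m1 : (1 : ℚ) ∈ cls 6 (fun x => tbl (phi x)) 1 :=
      ⟨by simpa using pow_mem 0, by show tbl (phi 1) = 1; rw [phi_one]; decide⟩
    have m8 : (8 : ℚ) ∈ cls 6 (fun x => tbl (phi x)) 1 :=
      ⟨by have := pow_mem 3; norm_num at this; exact this,
        by show tbl (phi 8) = 1; rw [phi_eight]; decide⟩
    have a1 := Set.mem_image_of_mem (fun x => ((4 : ℕ) : ℚ) * x) m1
    have a8 := Set.mem_image_of_mem (fun x => ((4 : ℕ) : ℚ) * x) m8
    rw [h] at a1 a8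
    have b1 : tbl (phi (((4 : ℕ) : ℚ) * 1)) = l := a1.2
    have b8 : tbl (phi (((4 : ℕ) : ℚ) * 8)) = l := a8.2
    have e : ((4 : ℕ) : ℚ) = 4 := by norm_num
    rw [e, phi_mul _ _ (by norm_num) (by norm_num), phi_four] at b1 b8
    rw [phi_one] at b1
    rw [phi_eight] at b8
    have : tbl (2 + 0) ≠ tbl (2 + 3) := by decide
    exact this (b1.trans b8.symm)

end Pool.Agent.Results.MP_aaa104_nt.NotRecovered
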